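import Pool.Agent.N54.MR.Rec

set_option autoImplicit false

/-!
# Record prime gaps along almost all sequences

Let `D` be any set of positive integers which has at least `N ^ (1 - ε)` members in `(N, 2 N]` for every `ε > 0` and all
large `N` (all integers, the primes, ...). Let `x n = (ξ_1 g_1(n) + c_1(n), …, ξ_r g_r(n) + c_r(n))`, where `g_i`, `c_i` are
ARBITRARY real sequences with `g_i(n + 1) - g_i(n) ≥ n ^ (ρ - 1)` for large `n`, for instance `g_i` any increasing sequences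
of integers, all of them equal if one likes. For almost all real `ξ` and for every `ε > 0` there are, for all large `N`, at
least `N ^ (1 - ε)` integers `n ∈ D` in `(N, 2 N]` such that no prime lies within `κ log N (log₂ N)² log₄ N / (log₃ N)²` of
any of the coordinates of `x n`. The same is true, uniformly, for all images `(T x(n)) / b + β` with `T` a nonsingular
integral matrix with entries at most `N ^ θ`, `1 ≤ b ≤ N ^ θ` and `β` any real vector, as long as the coordinates are at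
least `N ^ ε`. The numbers `κ`, `θ` depend only on `r`, `ρ` and `ε`. The same for `ξ_i ^ g_i(n) + c_i(n)`, `ξ_i > 1`, and for
general families.

If `g_i` grows at most like a power of `n`, then this is the length of the longest known gaps between consecutive primes of
the size of `x_i(n)`, up to a constant.

Proof: second moments over `ξ` (after helper668's theorem on `⌊ξ g(n)⌋`) give a power saving, for almost all `ξ`, in the
exponential sums at all small rational vectors (`Pool.Agent.N54.MR.Small`); the joint covering criterion of helper961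
(`Pool.Agent.Y961.JR.crit_scaledJ`, a covering sieve of the type of Ford, Green, Konyagin, Maynard and Tao) is applied to
the family of all `n` for which the conclusion fails (`Pool.Agent.N54.MR.Rec`).
-/

namespace Pool.Agent.Results.MP_62ce35_nt.MetricRecordGaps

open Finset Filter MeasureTheory

/-- the record function `log x (log₂ x)² log₄ x / (log₃ x)²` -/
noncomputable def R (x : ℝ) : ℝ :=
  Real.log x * (Real.log (Real.log x)) ^ 2 * Real.log (Real.log (Real.log (Real.log x))) /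
    (Real.log (Real.log (Real.log x))) ^ 2

/-- `D` has at least `N ^ (1 - ε)` members in `(N, 2 N]`, for every `ε > 0` and all large `N`. -/
def Many (D : Set ℕ) : Prop :=
  ∀ ε : ℝ, 0 < ε → ∃ N₀ : ℕ, ∀ N : ℕ, N₀ ≤ N →
    (N : ℝ) ^ (1 - ε) ≤ ({n : ℕ | n ∈ D ∧ N < n ∧ n ≤ 2 * N}.ncard : ℝ)

/-- The functions `F 0, F 1, …` have continuous second derivatives; on `[u, v]` the first derivatives grow from `n` to
`n + 1` by at least `n ^ (ρ - 1)` and the second derivatives do not decrease, for large `n`. -/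
def Spread (ρ u v : ℝ) (F : ℕ → ℝ → ℝ) : Prop :=
  (∀ n, ContDiff ℝ 2 (F n)) ∧ ∃ n₀ : ℕ, ∀ n, n₀ ≤ n → ∀ x ∈ Set.Icc u v,
    (n : ℝ) ^ (ρ - 1) ≤ deriv (F (n + 1)) x - deriv (F n) x ∧
      deriv (deriv (F n)) x ≤ deriv (deriv (F (n + 1))) x

/-- The vector `(T x) / b + β`. -/
noncomputable def image {r : ℕ} (T : Matrix (Fin r) (Fin r) ℤ) (b : ℕ) (β x : Fin r → ℝ) : Fin r → ℝ :=
  fun i => (∑ j, (T i j : ℝ) * x j) / b + β i

/-- No prime lies within `κ R N` of any of the coordinates of `y`. -/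
def Isolated {r : ℕ} (κ : ℝ) (N : ℕ) (y : Fin r → ℝ) : Prop :=
  ∀ i, ∀ q : ℕ, q.Prime → κ * R N < |(q : ℝ) - y i|

/-- For all large `N`, all nonsingular integral matrices `T` with entries at most `N ^ θ` in absolute value, all
`1 ≤ b ≤ N ^ θ` and all real vectors `β` for which the coordinates of `(T (x n)) / b + β` are at least `N ^ ε` for all
`n ∈ D` in `(N, 2 N]`, at least `N ^ (1 - ε)` integers `n ∈ D` in `(N, 2 N]` are such that no prime lies within `κ R N` of any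
of the coordinates of `(T (x n)) / b + β`. -/
def RecordGaps {r : ℕ} (κ θ ε : ℝ) (D : Set ℕ) (x : ℕ → Fin r → ℝ) : Prop :=
  ∃ N₀ : ℕ, ∀ N : ℕ, N₀ ≤ N → ∀ (T : Matrix (Fin r) (Fin r) ℤ) (b : ℕ) (β : Fin r → ℝ),
    T.det ≠ 0 → (∀ i j, |(T i j : ℝ)| ≤ (N : ℝ) ^ θ) → 1 ≤ b → (b : ℝ) ≤ (N : ℝ) ^ θ →
    (∀ n ∈ D, N < n → n ≤ 2 * N → ∀ i, (N : ℝ) ^ ε ≤ image T b β (x n) i) →
    (N : ℝ) ^ (1 - ε) ≤
      ({n : ℕ | n ∈ D ∧ N < n ∧ n ≤ 2 * N ∧ Isolated κ N (image T b β (x n))}.ncard : ℝ)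

section Aux

open Classical in
lemma many_of {D : Set ℕ} (h : Many D) : Pool.Agent.N54.MR.ManyP (fun n => n ∈ D) := by
  intro ε hε
  obtain ⟨N₀, h⟩ := h ε hε
  refine ⟨N₀, fun N hN => (h N hN).trans (le_of_eq ?_)⟩
  have h1 : {n : ℕ | n ∈ D ∧ N < n ∧ n ≤ 2 * N} = (((Finset.Ioc N (2 * N)).filter fun n => n ∈ D : Finset ℕ) : Set ℕ) := by
    ext n
    simp only [Set.mem_ofPred_eq, coe_filter, Finset.mem_Ioc]
    tauto
  rw [h1, Set.ncard_coe_finset]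

lemma gaps_of {r : ℕ} {κ θ ε η : ℝ} {D : Set ℕ} {x : ℕ → Fin r → ℝ}
    (h : ∃ N₀ : ℕ, ∀ N : ℕ, N₀ ≤ N → ∀ (T : Matrix (Fin r) (Fin r) ℤ) (b : ℕ) (β : Fin r → ℝ),
        T.det ≠ 0 → (∀ i j, |(T i j : ℝ)| ≤ (N : ℝ) ^ θ) → 1 ≤ b → (b : ℝ) ≤ (N : ℝ) ^ θ →
        (∀ n : ℕ, n ∈ D → N < n → n ≤ 2 * N → ∀ i, (N : ℝ) ^ ε ≤ (∑ j, (T i j : ℝ) * x n j) / b + β i) →
        ∃ G : Finset ℕ, (∀ n ∈ G, n ∈ D ∧ N < n ∧ n ≤ 2 * N) ∧ (N : ℝ) ^ (1 - ε) ≤ (G.card : ℝ) ∧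
          ∀ n ∈ G, ∀ i, ∀ q : ℕ, q.Prime →
            κ * R N < |(q : ℝ) - ((∑ j, (T i j : ℝ) * x n j) / b + β i)|) (_ : η = η) :
    RecordGaps κ θ ε D x := by
  obtain ⟨N₀, h⟩ := h
  refine ⟨N₀, fun N hN T b β h1 h2 h3 h4 h5 => ?_⟩
  obtain ⟨G, hG1, hG2, hG3⟩ := h N hN T b β h1 h2 h3 h4 h5
  refine hG2.trans ?_
  rw [← Set.ncard_coe_finset, Nat.cast_le]
  refine Set.ncard_le_ncard ?_ ((Set.finite_Iic (2 * N)).subset fun n hn => hn.2.2.1)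
  intro n hn
  have hn' : n ∈ G := hn
  obtain ⟨g1, g2, g3⟩ := hG1 n hn'
  exact ⟨g1, g2, g3, hG3 n hn'⟩

end Aux

/-- **Theorem.** -/
theorem result (r : ℕ) (hr : 1 ≤ r) (ρ : ℝ) (hρ : 0 < ρ) (hρ1 : ρ ≤ 1) :
    ∃ κ θ : ℝ → ℝ, (∀ ε : ℝ, 0 < ε → 0 < κ ε ∧ 0 < θ ε) ∧ ∀ D : Set ℕ, Many D →
      (∀ g c : Fin r → ℕ → ℝ, (∀ i, ∀ᶠ n : ℕ in atTop, (n : ℝ) ^ (ρ - 1) ≤ g i (n + 1) - g i n) →
        ∀ᵐ ξ : Fin r → ℝ, ∀ ε : ℝ, 0 < ε → ε ≤ 1 →
          RecordGaps (κ ε) (θ ε) ε D (fun n i => ξ i * g i n + c i n)) ∧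
      (∀ (g : Fin r → ℕ → ℕ) (c : Fin r → ℕ → ℝ), (∀ i, StrictMono (g i)) →
        ∀ᵐ ξ : Fin r → ℝ, (∀ i, 1 < ξ i) → ∀ ε : ℝ, 0 < ε → ε ≤ 1 →
          RecordGaps (κ ε) (θ ε) ε D (fun n i => ξ i ^ g i n + c i n)) ∧
      (∀ (u v : Fin r → ℝ) (F : Fin r → ℕ → ℝ → ℝ), (∀ i, Spread ρ (u i) (v i) (F i)) →
        ∀ᵐ ξ : Fin r → ℝ, (∀ i, ξ i ∈ Set.Ioc (u i) (v i)) → ∀ ε : ℝ, 0 < ε → ε ≤ 1 →
          RecordGaps (κ ε) (θ ε) ε D (fun n i => F i n (ξ i))) := by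
  classical
  have hη := Pool.Agent.N54.MR.eta_pos hρ r
  have hη1 := Pool.Agent.N54.MR.eta_le hρ r
  have hex : ∀ ε : ℝ, ∃ κ θ : ℝ, 0 < κ ∧ 0 < θ ∧ (0 < ε → ε ≤ 1 → ∀ (D : Set ℕ), Many D →
      ∀ x : ℕ → Fin r → ℝ, Pool.Agent.N54.MR.SmallL (Pool.Agent.N54.MR.eta ρ r) (fun n => n ∈ D) x →
      RecordGaps κ θ ε D x) := by
    intro ε
    by_cases h : 0 < ε ∧ ε ≤ 1
    · obtain ⟨κ, θ, hκ, hθ, hm⟩ := Pool.Agent.N54.MR.rec_of hr (Pool.Agent.N54.MR.eta ρ r) hη hη1 ε h.1 h.2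
      refine ⟨κ, θ, hκ, hθ, fun _ _ D hD x hx => ?_⟩
      obtain ⟨N₀, hN₀⟩ := hm (fun n => n ∈ D) (many_of hD) x hx
      refine gaps_of (η := 0) ⟨N₀, fun N hN T b β h1 h2 h3 h4 h5 => ?_⟩ rfl
      obtain ⟨G, hG1, hG2, hG3⟩ := hN₀ N hN T b β h1 h2 h3 h4 h5
      refine ⟨G, fun n hn => ?_, hG2, hG3⟩
      have := hG1 hn
      rw [mem_filter, Finset.mem_Ioc] at this
      exact ⟨this.2, this.1.1, this.1.2⟩
    · exact ⟨1, 1, one_pos, one_pos, fun h1 h2 => absurd ⟨h1, h2⟩ h⟩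
  choose κ θ hκ hθ hm using hex
  refine ⟨κ, θ, fun ε _ => ⟨hκ ε, hθ ε⟩, fun D hD => ?_⟩
  obtain ⟨h1, h2, h3⟩ := Pool.Agent.N54.MR.three_small (r := r) (fun n => n ∈ D) hρ hρ1
    (fun x => ∀ ε : ℝ, 0 < ε → ε ≤ 1 → RecordGaps (κ ε) (θ ε) ε D x)
    (fun x hx ε hε hε1 => hm ε hε hε1 D hD x hx)
  exact ⟨h2, h3, h1⟩

end Pool.Agent.Results.MP_62ce35_nt.MetricRecordGaps
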